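import Pool.Agent.W209.CF.Basic

/-!
Lemma F: an odd cycle and a hyperedge meeting it at least twice.
-/

namespace Pool.Agent.W440.CF3

open Finset Pool.Agent.W209.CF

section
variable {V E : Type} [Fintype V] [DecidableEq V] [Fintype E] [DecidableEq E]
variable {inc : E → Finset V}

theorem kd_erase {K : Finset E} {e : E} (he : e ∈ K) (v : V) :
    kd inc K v = kd inc (K.erase e) v + (if v ∈ inc e then 1 else 0) := by
  unfold kd
  rw [Finset.filter_erase]
  by_cases h : v ∈ inc e
  · rw [if_pos h, Finset.card_erase_of_mem (mem_filter.2 ⟨he, h⟩)]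
    have h1 : 0 < (K.filter (fun e => v ∈ inc e)).card :=
      Finset.card_pos.2 ⟨e, mem_filter.2 ⟨he, h⟩⟩
    omega
  · rw [if_neg h, Finset.erase_eq_of_notMem]
    · omega
    · intro h1
      exact h (mem_filter.1 h1).2

/-- a convenient form of `OKwith` -/
theorem ok_of {K : Finset E} {c : E → Fin 3} {A : Finset V} {γ : Fin 3} (hγ : γ ≠ 0)
    (h1 : ∀ e, c e ≠ 0 → e ∈ K)
    (h2 : ∀ v, kd inc K v ≠ 0 → v ∈ A → cnt inc c γ v = 0 ∨ cnt inc c (opp γ) v = 1)
    (h3 : ∀ v, kd inc K v ≠ 0 → v ∉ A → cnt inc c γ v = 1 ∨ cnt inc c (opp γ) v = 1) :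
    OKwith inc K c A γ := by
  refine ⟨h1, fun v hv => ?_⟩
  have hv' := kd_pos.2 hv
  by_cases hA : v ∈ A
  · have h4 := h2 v hv' hA
    rcases eq_one_or_two hγ with rfl | rfl
    · rw [opp_one] at h4
      simp only [hA, true_and, if_true]
      rcases h4 with h4 | h4
      · left; omega
      · right
        rw [if_neg (by decide)]
        omega
    · rw [opp_two] at h4
      simp only [hA, true_and, if_true]
      rcases h4 with h4 | h4
      · right; omega
      · left
        rw [if_neg (by decide)]
        omega
  · have h4 := h3 v hv' hA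
    simp only [hA, false_and, if_false]
    rcases eq_one_or_two hγ with rfl | rfl
    · rw [opp_one] at h4
      rcases h4 with h4 | h4
      · left; omega
      · right; omega
    · rw [opp_two] at h4
      rcases h4 with h4 | h4
      · right; omega
      · left; omega

theorem dg_split (c : E → Fin 3) {γ : Fin 3} (hγ : γ ≠ 0) (v : V) :
    cnt inc c γ v + cnt inc c (opp γ) v = dg inc c v := by
  unfold dg
  rcases eq_one_or_two hγ with rfl | rfl
  · rw [opp_one]
  · rw [opp_two, Nat.add_comm]

theorem St_le {c : E → Fin 3} (hs : St inc c) {γ : Fin 3} (hγ : γ ≠ 0) (v : V) :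
    cnt inc c γ v ≤ 1 := by
  rcases eq_one_or_two hγ with rfl | rfl
  · exact (hs v).1
  · exact (hs v).2

/-- a colouring coloured exactly on `K` minus `e`, with all critical vertices right -/
theorem ok_del {K : Finset E} (hK : ∀ v, kd inc K v ≤ 2) {e : E} (he : e ∈ K) {c : E → Fin 3}
    {A : Finset V} {γ : Fin 3} (hγ : γ ≠ 0) (hc : ∀ e', c e' ≠ 0 ↔ (e' ∈ K ∧ e' ≠ e))
    (hs : St inc c) (hp : ∀ v ∈ inc e, kd inc K v = 1 → v ∈ A)
    (hcr : ∀ v ∈ A, (kd inc K v = 1 ∧ v ∉ inc e) ∨ (kd inc K v = 2 ∧ v ∈ inc e) →
      cnt inc c (opp γ) v = 1) : OKwith inc K c A γ := by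
  have hd : ∀ v, cnt inc c γ v + cnt inc c (opp γ) v + (if v ∈ inc e then 1 else 0) =
      kd inc K v := by
    intro v
    rw [dg_split c hγ, kd_erase he v, dg_eq_kd (K := K.erase e)]
    intro e'
    rw [hc e', mem_erase]
    tauto
  have ho := opp_ne_zero hγ
  refine ok_of hγ (fun e' h => ((hc e').1 h).1) (fun v hv hA => ?_) (fun v hv hA => ?_)
  · have h1 := hd v
    have h2 := St_le hs hγ v
    have h3 := St_le hs ho v
    have h4 := hK v
    have h5 := hcr v hA
    by_cases hve : v ∈ inc e
    · simp only [hve, if_true, not_true, and_false, and_true, false_or] at h1 h5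
      omega
    · simp only [hve, if_false, not_false_iff, and_true, and_false, or_false] at h1 h5
      omega
  · have h1 := hd v
    have h2 := St_le hs hγ v
    have h3 := St_le hs ho v
    have h4 := hK v
    by_cases hve : v ∈ inc e
    · have h5 : kd inc K v ≠ 1 := fun h => hA (hp v hve h)
      simp only [hve, if_true] at h1
      omega
    · simp only [hve, if_false] at h1
      omega

theorem two_members {K : Finset E} {v : V} (h2 : kd inc K v ≤ 2) {e e' e'' : E} (he : e ∈ K)
    (he' : e' ∈ K) (he'' : e'' ∈ K) (h : v ∈ inc e) (h' : v ∈ inc e') (h'' : v ∈ inc e'')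
    (hne : e ≠ e') (hne' : e'' ≠ e) : e'' = e' := by
  by_contra h3
  have : 2 < (K.filter (fun e => v ∈ inc e)).card :=
    Finset.two_lt_card.2 ⟨e, mem_filter.2 ⟨he, h⟩, e', mem_filter.2 ⟨he', h'⟩, e'',
      mem_filter.2 ⟨he'', h''⟩, hne, hne'.symm, fun h4 => h3 h4.symm⟩
  unfold kd at h2
  omega

theorem one_member {K : Finset E} {v : V} (h2 : kd inc K v = 1) {e e' : E} (he : e ∈ K)
    (he' : e' ∈ K) (h : v ∈ inc e) (h' : v ∈ inc e') : e = e' := by
  unfold kd at h2
  exact Finset.card_le_one.1 h2.le e (mem_filter.2 ⟨he, h⟩) e' (mem_filter.2 ⟨he', h'⟩)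

/-- the colouring of `S_del` for a private vertex `p` of `e` in `f` -/
theorem del_case (hdel : S_del) (hinc : ∀ e, (inc e).card = 3) {K : Finset E} (hK : OddK inc K)
    {f : E} {γ : Fin 3} (hγ : γ ≠ 0) {e : E} (he : e ∈ K) {p : V} (hpe : p ∈ inc e)
    (hpf : p ∈ inc f) (hp1 : kd inc K p = 1)
    (hone : ∀ v ∈ inc f, ∀ w ∈ inc f,
      (kd inc K v = 1 ∧ v ∉ inc e) ∨ (kd inc K v = 2 ∧ v ∈ inc e) →
      (kd inc K w = 1 ∧ w ∉ inc e) ∨ (kd inc K w = 2 ∧ w ∈ inc e) → v = w) :
    ∃ c : E → Fin 3, OKwith inc K c (inc f) γ := by
  obtain ⟨q, hqe, hq1, hq⟩ := hK.pri1 e he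
  have hpq : p = q := by
    by_contra h
    have := hq p hpe h
    omega
  subst hpq
  have hpr : ∀ v ∈ inc e, kd inc K v = 1 → v ∈ inc f := by
    intro v hv h1
    by_cases h : v = p
    · rw [h]; exact hpf
    · have := hq v hv h
      omega
  by_cases hex : ∃ y ∈ inc f, (kd inc K y = 1 ∧ y ∉ inc e) ∨ (kd inc K y = 2 ∧ y ∈ inc e)
  · obtain ⟨y, hyf, hy⟩ := hex
    have hyK : y ∈ VK inc K := by
      rw [← kd_pos]
      omega
    obtain ⟨c, hc, hs, hy'⟩ := hdel V E inc hinc K hK e he y hyK (by
      intro h
      rcases hy with hy | hy
      · exact hy.2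
      · omega) γ hγ
    refine ⟨c, ok_del hK.kd2 he hγ hc hs hpr fun v hv hcv => ?_⟩
    have : v = y := hone v hv y hyf hcv hy
    subst this
    exact (hy' (by tauto)).2
  · push Not at hex
    obtain ⟨y, hye, hyp⟩ : ∃ y ∈ inc e, y ≠ p := by
      have : 1 < (inc e).card := by rw [hinc e]; norm_num
      exact Finset.exists_mem_ne this p
    have hyK : y ∈ VK inc K := mem_VK.2 ⟨e, he, hye⟩
    obtain ⟨c, hc, hs, -⟩ := hdel V E inc hinc K hK e he y hyK (by
      intro h
      have := hq y hye hyp
      omega) γ hγ
    refine ⟨c, ok_del hK.kd2 he hγ hc hs hpr fun v hv hcv => ?_⟩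
    exfalso
    have h1 := hex v hv
    tauto

theorem lemF : S_flip → S_del → S_F := by
  intro hflip hdel V E _ _ _ _ inc hinc K hK f hfK h2 hpri γ hγ
  have ho := opp_ne_zero hγ
  by_cases hp : ∃ p ∈ inc f, kd inc K p = 1
  · obtain ⟨p, hpf, hp1⟩ := hp
    have hpK : p ∈ VK inc K := by
      rw [← kd_pos]
      omega
    obtain ⟨e, he, hpe⟩ := mem_VK.1 hpK
    by_cases hone : ∀ v ∈ inc f, ∀ w ∈ inc f,
        (kd inc K v = 1 ∧ v ∉ inc e) ∨ (kd inc K v = 2 ∧ v ∈ inc e) →
        (kd inc K w = 1 ∧ w ∉ inc e) ∨ (kd inc K w = 2 ∧ w ∈ inc e) → v = w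
    · exact del_case hdel hinc hK hγ he hpe hpf hp1 hone
    · push Not at hone
      obtain ⟨y, hyf, y', hyf', hy, hy', hne⟩ := hone
      have hyp : y ≠ p := by
        rintro rfl
        rcases hy with h | h
        · exact h.2 hpe
        · omega
      have hyp' : y' ≠ p := by
        rintro rfl
        rcases hy' with h | h
        · exact h.2 hpe
        · omega
      -- the three vertices of `f`
      have hf3 : inc f = {p, y, y'} := by
        symm
        apply Finset.eq_of_subset_of_card_le
        · intro v hv
          simp only [mem_insert, mem_singleton] at hv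
          rcases hv with rfl | rfl | rfl
          · exact hpf
          · exact hyf
          · exact hyf'
        · rw [hinc f, Finset.card_eq_three.2 ⟨p, y, y', hyp.symm, hyp'.symm, hne, rfl⟩]
      -- a cycle vertex and a private vertex
      have key : ∀ a b, inc f = {p, a, b} → a ≠ b → a ≠ p → b ≠ p → kd inc K a = 1 →
          a ∉ inc e → kd inc K b = 2 → b ∈ inc e → ∃ c : E → Fin 3, OKwith inc K c (inc f) γ := by
        intro a b hab hne1 hap hbp ha1 hae hb2 hbe
        have haf : a ∈ inc f := by rw [hab]; simp
        have hbf : b ∈ inc f := by rw [hab]; simp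
        have haK : a ∈ VK inc K := by
          rw [← kd_pos]
          omega
        obtain ⟨e', he', hae'⟩ := mem_VK.1 haK
        have hee : e ≠ e' := by
          rintro rfl
          exact hae hae'
        have hpe' : p ∉ inc e' := fun h => hee (one_member hp1 he he' hpe h)
        by_cases hbe' : b ∈ inc e'
        · -- `b` in both
          have hbK : b ∈ VK inc K := mem_VK.2 ⟨e, he, hbe⟩
          obtain ⟨c, hc, hs, hb'⟩ := hdel V E inc hinc K hK e he b hbK (by
            intro h; omega) γ hγ
          have hb'' := (hb' (Or.inr hbe)).2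
          obtain ⟨e'', h1, h3⟩ := cnt_pos.1 hb''.ge
          have h4 : e'' ∈ K ∧ e'' ≠ e := (hc e'').1 (by rw [h3]; exact ho)
          have h5 : e'' = e' := two_members (hK.kd2 b) he he' h4.1 hbe hbe' h1 hee h4.2
          subst h5
          have ha' : cnt inc c (opp γ) a = 1 := by
            have h6 : 1 ≤ cnt inc c (opp γ) a := cnt_pos.2 ⟨e'', hae', h3⟩
            have h7 := St_le hs ho a
            omega
          refine ⟨c, ok_del hK.kd2 he hγ hc hs ?_ fun v hv hcv => ?_⟩
          · intro v hv h1
            obtain ⟨q, hqe, hq1, hq⟩ := hK.pri1 e he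
            have hpq : p = q := by
              by_contra h
              have := hq p hpe h
              omega
            have hvq : v = q := by
              by_contra h
              have := hq v hv h
              omega
            rw [hvq, ← hpq]
            exact hpf
          · rw [hab] at hv
            simp only [mem_insert, mem_singleton] at hv
            rcases hv with rfl | rfl | rfl
            · exfalso
              rcases hcv with h | h
              · exact h.2 hpe
              · omega
            · exact ha'
            · exact hb''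
        · refine del_case hdel hinc hK hγ he' hae' haf ha1 ?_
          intro v hv w hw hcv hcw
          have aux : ∀ v ∈ inc f,
              (kd inc K v = 1 ∧ v ∉ inc e') ∨ (kd inc K v = 2 ∧ v ∈ inc e') → v = p := by
            intro v hv hcv
            rw [hab] at hv
            simp only [mem_insert, mem_singleton] at hv
            rcases hv with rfl | rfl | rfl
            · rfl
            · exfalso
              rcases hcv with h | h
              · exact h.2 hae'
              · omega
            · exfalso
              rcases hcv with h | h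
              · omega
              · exact hbe' h.2
          rw [aux v hv hcv, aux w hw hcw]
      rcases hy with ⟨hy1, hye⟩ | ⟨hy2, hye⟩
      · rcases hy' with ⟨hy1', hye'⟩ | ⟨hy2', hye'⟩
        · exfalso
          apply hpri
          intro v hv
          rw [hf3] at hv
          simp only [mem_insert, mem_singleton] at hv
          rw [mem_pri]
          rcases hv with rfl | rfl | rfl
          · exact hp1
          · exact hy1
          · exact hy1'
        · exact key y y' hf3 hne hyp hyp' hy1 hye hy2' hye'
      · rcases hy' with ⟨hy1', hye'⟩ | ⟨hy2', hye'⟩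
        · refine key y' y ?_ hne.symm hyp' hyp hy1' hye' hy2 hye
          rw [hf3]
          ext v
          simp only [mem_insert, mem_singleton]
          tauto
        · -- `f` has the same vertices as `e`
          have he3 : inc e = {p, y, y'} := by
            symm
            apply Finset.eq_of_subset_of_card_le
            · intro v hv
              simp only [mem_insert, mem_singleton] at hv
              rcases hv with rfl | rfl | rfl
              · exact hpe
              · exact hye
              · exact hye'
            · rw [hinc e, Finset.card_eq_three.2 ⟨p, y, y', hyp.symm, hyp'.symm, hne, rfl⟩]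
          have hyK : y ∈ VK inc K := mem_VK.2 ⟨e, he, hye⟩
          obtain ⟨c, hc, hs, -⟩ := hdel V E inc hinc K hK e he y hyK (by
            intro h; omega) γ hγ
          have hce : c e = 0 := by
            by_contra h
            exact ((hc e).1 h).2 rfl
          have hd : ∀ v, cnt inc c γ v + cnt inc c (opp γ) v + (if v ∈ inc e then 1 else 0) =
              kd inc K v := by
            intro v
            rw [dg_split c hγ, kd_erase he v, dg_eq_kd (K := K.erase e)]
            intro e'
            rw [hc e', mem_erase]
            tauto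
          have hu1 : ∀ v, cnt inc (Function.update c e (opp γ)) γ v = cnt inc c γ v := by
            intro v
            rw [cnt_update hce (opp γ) hγ v, if_neg fun h => opp_ne_self hγ h.2, Nat.add_zero]
          have hu2 : ∀ v, cnt inc (Function.update c e (opp γ)) (opp γ) v =
              cnt inc c (opp γ) v + (if v ∈ inc e then 1 else 0) := by
            intro v
            rw [cnt_update hce (opp γ) ho v]
            simp
          have hef : inc f = inc e := by rw [hf3, he3]
          refine ⟨Function.update c e (opp γ), ok_of hγ ?_ ?_ ?_⟩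
          · intro e' h
            by_cases hee : e' = e
            · rw [hee]; exact he
            · rw [Function.update_of_ne hee] at h
              exact ((hc e').1 h).1
          · intro v hv hvf
            rw [hef] at hvf
            rw [hu1, hu2]
            have h1 := hd v
            have h2 := St_le hs hγ v
            have h3 := St_le hs ho v
            have h4 := hK.kd2 v
            simp only [hvf, if_true] at h1 ⊢
            omega
          · intro v hv hvf
            rw [hef] at hvf
            rw [hu1, hu2]
            have h1 := hd v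
            have h2 := St_le hs hγ v
            have h3 := St_le hs ho v
            simp only [hvf, if_false] at h1 ⊢
            omega
  · push Not at hp
    obtain ⟨x, hx⟩ : (inc f ∩ VK inc K).Nonempty := by
      rw [← Finset.card_pos]
      omega
    rw [mem_inter, ← kd_pos] at hx
    have hx2 : kd inc K x = 2 := by
      have h1 := hp x hx.1
      have h3 := hK.kd2 x
      have h4 := hx.2
      omega
    obtain ⟨c, hc, hx', hx'', hc2, hc1⟩ := hflip V E inc hinc K hK x hx2 (opp γ) ho
    rw [opp_opp] at hx''
    have hcyc : ∀ v, v ≠ x → kd inc K v = 2 → cnt inc c (opp γ) v = 1 := by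
      intro v hv h
      have h1 := hc2 v hv h
      rcases eq_one_or_two ho with h3 | h3
      · rw [h3]; exact h1.1
      · rw [h3]; exact h1.2
    refine ⟨c, ok_of hγ hc ?_ ?_⟩
    · intro v hv hvf
      by_cases hvx : v = x
      · rw [hvx]
        exact Or.inl hx''
      · right
        apply hcyc v hvx
        have h1 := hp v hvf
        have h3 := hK.kd2 v
        omega
    · intro v hv hvf
      have hvx : v ≠ x := by
        rintro rfl
        exact hvf hx.1
      have h3 := hK.kd2 v
      by_cases h4 : kd inc K v = 2
      · exact Or.inr (hcyc v hvx h4)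
      · have h5 := hc1 v (by omega)
        have h6 := dg_split (inc := inc) c hγ v
        unfold dg at h6
        omega

end

end Pool.Agent.W440.CF3
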